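import Pool.Agent.P.MP_a09be5_co.Main

namespace Pool.Agent.Results.MP_a09be5_co.Threshold
open Pool.Agent.P.MP_a09be5_co

theorem result (a b : ℕ) (ha : 2 ≤ a) (hb : 2 ≤ b) :
    (∀ t : ℕ, ChromaticChoosable (KK a b t) ↔
      if min a b = 2 then max a b < (t + 2) ^ 2
      else max a b ≤ (t + 2) * ((t + 2) ⌈/⌉ (min a b - 1))) ∧
    phi a b =
      if min a b = 2 then Nat.sqrt (max a b) - 1
      else max (Nat.sqrt ((max a b - 1) / (min a b - 1)) * (min a b - 1) + 1)
        (max a b ⌈/⌉ (Nat.sqrt ((max a b - 1) / (min a b - 1)) + 1)) - 2 := by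
  refine ⟨criterion ha hb, ?_⟩
  unfold phi
  simp only [criterion ha hb]
  split_ifs with h
  · exact arith_two (le_max_of_le_left ha)
  · exact arith_three (by omega) min_le_max

end Pool.Agent.Results.MP_a09be5_co.Threshold
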